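import Pool.Agent.Helper24.GEO.Defs
import Pool.Agent.Helper14.LD.Arc

/-!
# The arcs of the curve on the boundary of a column (project SURF, MP_409f7f_co)

`piece S q a b`: the edges of the boundary of the column from `Z a` to `Z b`. By
`IsMinF.join_sub` the curve contains every piece between two of its vertices that avoids the crossing
edges and `c0`; so it meets the boundary in one arc (`arcP_of`, `arcZ_of`).
-/

namespace Pool.Agent.Helper26.SURF

open Pool.Agent.Helper17.UF Pool.Agent.Helper16.LD Pool.Agent.Helper24.GEO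

theorem ptk_inj {k x y z x' y' z' : ℤ} (h : ptk k x y z = ptk k x' y' z') :
    x = x' ∧ y = y' ∧ z = z' := by
  unfold ptk at h
  split_ifs at h <;> simp only [Prod.mk.injEq] at h <;> omega

theorem n_eq (S : Strip) : S.n = (S.y1 - S.y0).natAbs + 2 := rfl

theorem sg_cases (S : Strip) :
    (S.sg = 1 ∧ S.y0 ≤ S.y1) ∨ (S.sg = -1 ∧ S.y1 < S.y0) := by
  unfold Strip.sg
  split_ifs with h
  · exact Or.inl ⟨rfl, h⟩
  · exact Or.inr ⟨rfl, not_le.1 h⟩

theorem far_cases (S : Strip) (g : Bool) :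
    (g = true ∧ S.far g = S.k + 1) ∨ (g = false ∧ S.far g = S.k - 1) := by
  unfold Strip.far
  cases g
  · exact Or.inr ⟨rfl, rfl⟩
  · exact Or.inl ⟨rfl, rfl⟩

theorem vx_inj (S : Strip) {s s' : ℤ} {i i' : ℕ} (hi : i ≤ S.n) (hi' : i' ≤ S.n)
    (h : S.vx s i = S.vx s' i') : s = s' ∧ i = i' := by
  have hn := n_eq S
  have hs := sg_cases S
  have h0 := far_cases S S.g0
  have h1 := far_cases S S.g1
  have hok := S.ok
  unfold Strip.vx at h
  split_ifs at h with a1 a2 a3 a4 a5 a6 a7 a8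
  · obtain ⟨e1, e2, e3⟩ := ptk_inj h
    omega
  · obtain ⟨e1, e2, e3⟩ := ptk_inj h
    omega
  · obtain ⟨e1, e2, e3⟩ := ptk_inj h
    exfalso
    have h3 := hok e2
    rcases h0 with ⟨h4, h5⟩ | ⟨h4, h5⟩ <;> rcases h1 with ⟨h6, h7⟩ | ⟨h6, h7⟩
    · exact h3 (h4.trans h6.symm)
    · omega
    · omega
    · exact h3 (h4.trans h6.symm)
  · obtain ⟨e1, e2, e3⟩ := ptk_inj h
    omega
  · obtain ⟨e1, e2, e3⟩ := ptk_inj h
    rcases hs with ⟨h3, h4⟩ | ⟨h3, h4⟩
    · rw [h3] at e2
      omega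
    · rw [h3] at e2
      omega
  · obtain ⟨e1, e2, e3⟩ := ptk_inj h
    omega
  · obtain ⟨e1, e2, e3⟩ := ptk_inj h
    exfalso
    have h3 := hok e2.symm
    rcases h0 with ⟨h4, h5⟩ | ⟨h4, h5⟩ <;> rcases h1 with ⟨h6, h7⟩ | ⟨h6, h7⟩
    · exact h3 (h4.trans h6.symm)
    · omega
    · omega
    · exact h3 (h4.trans h6.symm)
  · obtain ⟨e1, e2, e3⟩ := ptk_inj h
    omega
  · obtain ⟨e1, e2, e3⟩ := ptk_inj h
    omega

theorem Z_inj (S : Strip) {q j j' : ℕ} (hq : q < S.n) (hj : j ≤ 2 * S.n + 1)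
    (hj' : j' ≤ 2 * S.n + 1) (h : S.Z q j = S.Z q j') : j = j' := by
  unfold Strip.Z at h
  split_ifs at h with a1 a2 a3 a4 a5 a6 a7 a8
  all_goals
    obtain ⟨e1, e2⟩ := vx_inj S (by omega) (by omega) h
    omega

/-- The `j`-th edge of the boundary. -/
def zE (S : Strip) (q j : ℕ) : Sym2 Cube := s(S.Z q j, S.Z q (j + 1))

theorem zE_inj (S : Strip) {q j j' : ℕ} (hq : q < S.n) (hj : j < 2 * S.n + 1)
    (hj' : j' < 2 * S.n + 1) (h : zE S q j = zE S q j') : j = j' := by
  unfold zE at h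
  rw [Sym2.eq_iff] at h
  rcases h with ⟨h1, h2⟩ | ⟨h1, h2⟩
  · exact Z_inj S hq (by omega) (by omega) h1
  · have h3 := Z_inj S hq (by omega) (by omega) h1
    have h4 := Z_inj S hq (by omega) (by omega) h2
    omega

/-- The edges of the boundary from `Z a` to `Z b`. -/
def piece (S : Strip) (q a b : ℕ) : Finset (Sym2 Cube) := (Finset.Ico a b).image (zE S q)

theorem mem_piece {S : Strip} {q a b : ℕ} {ε : Sym2 Cube} :
    ε ∈ piece S q a b ↔ ∃ j, a ≤ j ∧ j < b ∧ zE S q j = ε := by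
  unfold piece
  simp only [Finset.mem_image, Finset.mem_Ico, and_assoc]

theorem dg_single {v w x : Cube} : Even (dg {s(v, w)} x) ↔ x ≠ v ∧ x ≠ w := by
  classical
  unfold dg
  rw [Finset.filter_singleton]
  by_cases h : x ∈ s(v, w)
  · rw [if_pos h, Finset.card_singleton]
    rw [Sym2.mem_iff] at h
    constructor
    · intro h1
      exact absurd h1 (by decide)
    · rintro ⟨h1, h2⟩
      rcases h with h | h
      · exact absurd h h1
      · exact absurd h h2
  · rw [if_neg h, Finset.card_empty]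
    rw [Sym2.mem_iff, not_or] at h
    exact ⟨fun _ => h, fun _ => Even.zero⟩

theorem join_step {T : Finset (Sym2 Cube)} {u v w : Cube} (hT : Join T u v) (hvw : v ≠ w) :
    Join (symmDiff T {s(v, w)}) u w := by
  intro x
  rw [even_dg_sd, hT x, dg_single]
  by_cases h1 : x = u
  · subst h1
    by_cases h2 : x = v
    · subst h2
      constructor
      · intro h3 _
        exact absurd (h3.1 (fun h => absurd rfl h)).1 (fun h => h rfl)
      · intro h3
        exact absurd (h3 hvw).1 (fun h => h rfl)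
    · by_cases h3 : x = w
      · subst h3
        constructor
        · intro _ h4
          exact absurd rfl h4
        · intro _
          constructor
          · intro h4
            exact absurd (h4 h2).1 (fun h => h rfl)
          · rintro ⟨_, h4⟩
            exact absurd rfl h4
      · constructor
        · intro h4 _
          exact absurd ((h4.2 ⟨h2, h3⟩) h2).1 (fun h => h rfl)
        · intro h4
          exact absurd (h4 h3).1 (fun h => h rfl)
  · by_cases h2 : x = v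
    · subst h2
      constructor
      · intro _ _
        exact ⟨h1, hvw⟩
      · intro _
        constructor
        · intro h4
          exact absurd (h4 (fun h => h1 h.symm)).2 (fun h => h rfl)
        · rintro ⟨h4, _⟩
          exact absurd rfl h4
    · by_cases h3 : x = w
      · subst h3
        constructor
        · intro h4
          have := h4.1 (fun _ => ⟨h1, h2⟩)
          exact absurd rfl this.2
        · intro h4
          exact absurd (h4 (fun h => h1 h.symm)).2 (fun h => h rfl)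
      · constructor
        · intro _ _
          exact ⟨h1, h3⟩
        · intro _
          exact ⟨fun _ => ⟨h2, h3⟩, fun _ _ => ⟨h1, h2⟩⟩

theorem join_piece (S : Strip) {q : ℕ} (hq : q < S.n) (a : ℕ) (d : ℕ)
    (hb : a + d ≤ 2 * S.n + 1) : Join (piece S q a (a + d)) (S.Z q a) (S.Z q (a + d)) := by
  classical
  induction d with
  | zero =>
    intro x
    have h1 : piece S q a (a + 0) = ∅ := by
      unfold piece
      simp
    rw [h1]
    unfold dg
    simp
  | succ d ih =>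
    have h1 := ih (by omega)
    have h2 : S.Z q (a + d) ≠ S.Z q (a + (d + 1)) := by
      intro h
      have := Z_inj S hq (by omega) (by omega) h
      omega
    have h3 := join_step h1 h2
    have h4 : piece S q a (a + (d + 1)) =
        symmDiff (piece S q a (a + d)) {s(S.Z q (a + d), S.Z q (a + (d + 1)))} := by
      ext ε
      rw [Finset.mem_symmDiff, mem_piece, mem_piece, Finset.mem_singleton]
      constructor
      · rintro ⟨j, h5, h6, rfl⟩
        by_cases h7 : j = a + d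
        · right
          subst h7
          refine ⟨rfl, ?_⟩
          rintro ⟨j', h8, h9, h10⟩
          have := zE_inj S hq (by omega) (by omega) h10
          omega
        · left
          refine ⟨⟨j, h5, by omega, rfl⟩, ?_⟩
          intro h8
          exact h7 (zE_inj (j' := a + d) S hq (by omega) (by omega) h8)
      · rintro (⟨⟨j, h5, h6, rfl⟩, -⟩ | ⟨rfl, -⟩)
        · exact ⟨j, h5, by omega, rfl⟩
        · exact ⟨a + d, by omega, by omega, rfl⟩
    rw [h4]
    exact h3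

/-- The boundary of the column in terms of `Z`. -/
theorem mem_bS {S : Strip} {q : ℕ} (hq : q < S.n) {ε : Sym2 Cube} :
    ε ∈ S.bS ↔ (∃ j, j < 2 * S.n + 1 ∧ ε = zE S q j) ∨
      ε = s(S.Z q 0, S.Z q (2 * S.n + 1)) := by
  have hn := n_eq S
  have hZ0 : S.Z q 0 = S.vx 0 q := by
    unfold Strip.Z
    rw [if_pos (Nat.zero_le _)]
    rfl
  have hZl : S.Z q (2 * S.n + 1) = S.vx 0 (q + 1) := by
    unfold Strip.Z
    rw [if_neg (by omega), if_neg (by omega)]
    congr 1
    omega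
  have hA : ∀ j, j ≤ q → S.Z q j = S.vx 0 (q - j) := by
    intro j hj
    unfold Strip.Z
    rw [if_pos hj]
  have hB : ∀ i, i ≤ S.n → S.Z q (q + 1 + i) = S.vx 1 i := by
    intro i hi
    unfold Strip.Z
    rw [if_neg (by omega), if_pos (by omega)]
    congr 1
    omega
  have hC : ∀ i, q < i → i ≤ S.n → S.Z q (q + 2 * S.n + 2 - i) = S.vx 0 i := by
    intro i hi hi'
    unfold Strip.Z
    rw [if_neg (by omega), if_neg (by omega)]
    congr 1
    omega
  unfold Strip.bS
  simp only [Finset.mem_union, Finset.mem_image, Finset.mem_range, Finset.mem_insert,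
    Finset.mem_singleton]
  constructor
  · rintro ((⟨i, hi, rfl⟩ | ⟨i, hi, rfl⟩) | rfl | rfl)
    · rcases lt_trichotomy i q with h | h | h
      · left
        refine ⟨q - i - 1, by omega, ?_⟩
        unfold zE
        have e1 : q - i - 1 + 1 = q - i := by omega
        rw [e1, hA _ (by omega), hA _ (by omega)]
        have e2 : q - (q - i - 1) = i + 1 := by omega
        have e3 : q - (q - i) = i := by omega
        rw [e2, e3, Sym2.eq_swap]
      · right
        subst h
        rw [hZ0, hZl]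
      · left
        refine ⟨q + 2 * S.n + 2 - (i + 1), by omega, ?_⟩
        unfold zE
        have e1 : q + 2 * S.n + 2 - (i + 1) + 1 = q + 2 * S.n + 2 - i := by omega
        rw [e1, hC _ (by omega) (by omega), hC _ (by omega) (by omega), Sym2.eq_swap]
    · left
      refine ⟨q + 1 + i, by omega, ?_⟩
      unfold zE
      have e1 : q + 1 + i + 1 = q + 1 + (i + 1) := by omega
      rw [e1, hB _ (by omega), hB _ (by omega)]
    · left
      refine ⟨q, by omega, ?_⟩
      unfold zE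
      have e1 : q + 1 = q + 1 + 0 := by omega
      rw [hA _ le_rfl, e1, hB _ (by omega)]
      have e2 : q - q = 0 := by omega
      rw [e2]
    · left
      refine ⟨q + 1 + S.n, by omega, ?_⟩
      unfold zE
      have e1 : q + 1 + S.n + 1 = q + 2 * S.n + 2 - S.n := by omega
      rw [e1, hB _ le_rfl, hC _ (by omega) le_rfl, Sym2.eq_swap]
  · rintro (⟨j, hj, rfl⟩ | rfl)
    · unfold zE
      by_cases h1 : j < q
      · left; left
        refine ⟨q - j - 1, by omega, ?_⟩
        rw [hA _ (by omega), hA _ (by omega)]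
        have e1 : q - j - 1 + 1 = q - j := by omega
        have e2 : q - (j + 1) = q - j - 1 := by omega
        rw [e1, e2, Sym2.eq_swap]
      by_cases h2 : j = q
      · right; left
        subst h2
        have e1 : j + 1 = j + 1 + 0 := by omega
        have e2 : j - j = 0 := by omega
        rw [hA _ le_rfl, e1, hB _ (by omega), e2]
      by_cases h3 : j < q + 1 + S.n
      · left; right
        obtain ⟨i, rfl⟩ : ∃ i, j = q + 1 + i := ⟨j - q - 1, by omega⟩
        refine ⟨i, by omega, ?_⟩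
        have e1 : q + 1 + i + 1 = q + 1 + (i + 1) := by omega
        rw [e1, hB _ (by omega), hB _ (by omega)]
      by_cases h4 : j = q + 1 + S.n
      · right; right
        subst h4
        have e1 : q + 1 + S.n + 1 = q + 2 * S.n + 2 - S.n := by omega
        rw [e1, hB _ le_rfl, hC _ (by omega) le_rfl, Sym2.eq_swap]
      · left; left
        obtain ⟨i, hi1, hi2, rfl⟩ : ∃ i, q < i ∧ i < S.n ∧ j = q + 2 * S.n + 2 - (i + 1) :=
          ⟨q + 2 * S.n + 1 - j, by omega, by omega, by omega⟩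
        refine ⟨i, hi2, ?_⟩
        have e1 : q + 2 * S.n + 2 - (i + 1) + 1 = q + 2 * S.n + 2 - i := by omega
        rw [e1, hC _ (by omega) (by omega), hC _ (by omega) (by omega), Sym2.eq_swap]
    · left; left
      refine ⟨q, hq, ?_⟩
      rw [hZ0, hZl]

theorem zE_mem_bS {S : Strip} {q j : ℕ} (hq : q < S.n) (hj : j < 2 * S.n + 1) :
    zE S q j ∈ S.bS := (mem_bS hq).2 (Or.inl ⟨j, hj, rfl⟩)

theorem Z_zero (S : Strip) (q : ℕ) : S.Z q 0 = S.vx 0 q := by
  unfold Strip.Z
  rw [if_pos (Nat.zero_le _)]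
  rfl

theorem Z_last (S : Strip) {q : ℕ} (hq : q < S.n) : S.Z q (2 * S.n + 1) = S.vx 0 (q + 1) := by
  unfold Strip.Z
  rw [if_neg (by omega), if_neg (by omega)]
  congr 1
  omega

theorem Z_side1 (S : Strip) {q i : ℕ} (hi : i ≤ S.n) : S.Z q (q + 1 + i) = S.vx 1 i := by
  unfold Strip.Z
  rw [if_neg (by omega), if_pos (by omega)]
  congr 1
  omega

/-- The crossing edge of side 1. -/
theorem zE_cross (S : Strip) {q r : ℕ} (hr : r < S.n) :
    zE S q (q + 1 + r) = s(S.vx 1 r, S.vx 1 (r + 1)) := by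
  unfold zE
  have e1 : q + 1 + r + 1 = q + 1 + (r + 1) := by omega
  rw [e1, Z_side1 S (by omega), Z_side1 S (by omega)]

theorem on_left {C : Finset (Sym2 Cube)} {u v : Cube} (h : s(u, v) ∈ C) : On C u :=
  ⟨_, h, Sym2.mem_mk_left _ _⟩

theorem on_right {C : Finset (Sym2 Cube)} {u v : Cube} (h : s(u, v) ∈ C) : On C v :=
  ⟨_, h, Sym2.mem_mk_right _ _⟩

/-- Only pieces without the crossing edges are needed. -/
theorem piece_cross (S : Strip) {q r : ℕ} (hq : q < S.n) (hr : r < S.n) {x y : ℕ}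
    (hy : y ≤ 2 * S.n + 1) (hpos : y ≤ q + 1 + r ∨ q + 2 + r ≤ x) :
    piece S q x y ⊆ S.bS ∧ s(S.vx 0 q, S.vx 0 (q + 1)) ∉ piece S q x y ∧
      s(S.vx 1 r, S.vx 1 (r + 1)) ∉ piece S q x y := by
  refine ⟨?_, ?_, ?_⟩
  · intro ε hε
    obtain ⟨i, h1, h2, rfl⟩ := mem_piece.1 hε
    exact zE_mem_bS hq (by omega)
  · intro h
    obtain ⟨i, h1, h2, h3⟩ := mem_piece.1 h
    rw [← Z_zero, ← Z_last S hq] at h3
    unfold zE at h3
    rw [Sym2.eq_iff] at h3
    rcases h3 with ⟨h4, h5⟩ | ⟨h4, h5⟩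
    · have h6 := Z_inj S hq (by omega) (by omega) h4
      have h7 := Z_inj S hq (by omega) (by omega) h5
      omega
    · have h6 := Z_inj S hq (by omega) (by omega) h4
      have h7 := Z_inj S hq (by omega) (by omega) h5
      omega
  · intro h
    obtain ⟨i, h1, h2, h3⟩ := mem_piece.1 h
    rw [← zE_cross S (q := q) hr] at h3
    have h4 := zE_inj S hq (by omega) (by omega) h3
    omega

/-- Arcs, first kind, from the pieces. -/
theorem core_KI {S : Strip} {q r : ℕ} {C : Finset (Sym2 Cube)} (hq : q < S.n) (hr : r < S.n)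
    (hW : s(S.vx 1 r, S.vx 1 (r + 1)) ∈ C) (hE : s(S.vx 0 q, S.vx 0 (q + 1)) ∉ C)
    (key : ∀ x y, x ≤ y → y ≤ 2 * S.n + 1 → (y ≤ q + 1 + r ∨ q + 2 + r ≤ x) →
      On C (S.Z q x) → On C (S.Z q y) → ∀ j, x ≤ j → j < y → zE S q j ∈ C) :
    ∃ lo hi, KI S q C lo hi ∧ lo ≤ q + 1 + r ∧ q + 2 + r ≤ hi := by
  classical
  have hcr : zE S q (q + 1 + r) ∈ C := by
    rw [zE_cross S hr]
    exact hW
  have on1 : On C (S.Z q (q + 1 + r)) := on_left hcr
  have on2 : On C (S.Z q (q + 2 + r)) := by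
    have := on_right (u := S.Z q (q + 1 + r)) (v := S.Z q (q + 1 + r + 1)) hcr
    have e1 : q + 1 + r + 1 = q + 2 + r := by omega
    rw [e1] at this
    exact this
  have hex1 : ∃ x, On C (S.Z q x) := ⟨_, on1⟩
  set lo := Nat.find hex1 with hlo
  have hlo1 : On C (S.Z q lo) := Nat.find_spec hex1
  have hlo2 : lo ≤ q + 1 + r := Nat.find_min' hex1 on1
  have hlo3 : ∀ x, On C (S.Z q x) → lo ≤ x := fun x hx => Nat.find_min' hex1 hx
  have hex2 : ∃ d, d ≤ 2 * S.n + 1 ∧ On C (S.Z q (2 * S.n + 1 - d)) := by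
    refine ⟨2 * S.n + 1 - (q + 2 + r), by omega, ?_⟩
    have e1 : 2 * S.n + 1 - (2 * S.n + 1 - (q + 2 + r)) = q + 2 + r := by omega
    rw [e1]
    exact on2
  set d := Nat.find hex2 with hd
  have hd1 := Nat.find_spec hex2
  rw [← hd] at hd1
  have hd3 : ∀ x, x ≤ 2 * S.n + 1 → On C (S.Z q x) → x ≤ 2 * S.n + 1 - d := by
    intro x hx hx1
    have h1 : d ≤ 2 * S.n + 1 - x := by
      refine Nat.find_min' hex2 ⟨by omega, ?_⟩
      have e1 : 2 * S.n + 1 - (2 * S.n + 1 - x) = x := by omega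
      rw [e1]
      exact hx1
    omega
  set hi := 2 * S.n + 1 - d with hhi
  have hhi2 : q + 2 + r ≤ hi := hd3 _ (by omega) on2
  have hed : ∀ j, lo ≤ j → j < hi → zE S q j ∈ C := by
    intro j h1 h2
    by_cases h3 : j < q + 1 + r
    · exact key lo (q + 1 + r) hlo2 (by omega) (Or.inl le_rfl) hlo1 on1 j h1 h3
    by_cases h4 : j = q + 1 + r
    · rw [h4]; exact hcr
    · exact key (q + 2 + r) hi hhi2 (by omega) (Or.inr le_rfl) on2 hd1.2 j (by omega) h2
  have hon : ∀ j, lo ≤ j → j ≤ hi → On C (S.Z q j) := by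
    intro j h1 h2
    by_cases h3 : j < hi
    · exact on_left (hed j h1 h3)
    · have h4 : j = hi := by omega
      rw [h4]
      exact hd1.2
  refine ⟨lo, hi, ⟨hq, by omega, by omega, ?_, ?_, ?_⟩, hlo2, hhi2⟩
  · intro j hj
    constructor
    · intro h1
      have h2 := hlo3 _ (on_left h1)
      have h3 := hd3 _ (by omega) (on_right h1)
      omega
    · rintro ⟨h1, h2⟩
      exact hed j h1 h2
  · rw [Z_zero, Z_last S hq]
    exact hE
  · intro j hj
    constructor
    · intro h1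
      exact ⟨hlo3 _ h1, hd3 _ hj h1⟩
    · rintro ⟨h1, h2⟩
      exact hon j h1 h2


/-- Arcs, second kind, from the pieces. -/
theorem core_KII {S : Strip} {q r : ℕ} {C : Finset (Sym2 Cube)} (hq : q < S.n) (hr : r < S.n)
    (hW : s(S.vx 1 r, S.vx 1 (r + 1)) ∈ C) (hE : s(S.vx 0 q, S.vx 0 (q + 1)) ∈ C)
    {c0 : Sym2 Cube} (hc0S : c0 ∈ S.bS) (hc0C : c0 ∉ C)
    (key0 : ∀ x y, x ≤ y → y ≤ 2 * S.n + 1 → (y ≤ q + 1 + r ∨ q + 2 + r ≤ x) →
      (∀ j, x ≤ j → j < y → zE S q j ≠ c0) → On C (S.Z q x) → On C (S.Z q y) →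
      ∀ j, x ≤ j → j < y → zE S q j ∈ C) :
    ∃ lo hi, KII S q C lo hi ∧ (hi ≤ q + 1 + r ∨ q + 2 + r ≤ lo) ∧
      ∃ j, lo ≤ j ∧ j < hi ∧ s(S.Z q j, S.Z q (j + 1)) = c0 := by
  classical
  have hwrap : s(S.Z q 0, S.Z q (2 * S.n + 1)) ∈ C := by
    rw [Z_zero, Z_last S hq]
    exact hE
  obtain ⟨m, hm, hmc⟩ : ∃ m, m < 2 * S.n + 1 ∧ c0 = zE S q m := by
    rcases (mem_bS hq).1 hc0S with h1 | h1
    · exact h1
    · rw [h1] at hc0C
      exact absurd hwrap hc0C
  have key : ∀ x y, x ≤ y → y ≤ 2 * S.n + 1 → (y ≤ q + 1 + r ∨ q + 2 + r ≤ x) →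
      (m < x ∨ y ≤ m) → On C (S.Z q x) → On C (S.Z q y) →
      ∀ j, x ≤ j → j < y → zE S q j ∈ C := by
    intro x y hxy hy hpos hmm h1 h2 j hj1 hj2
    refine key0 x y hxy hy hpos ?_ h1 h2 j hj1 hj2
    intro i hi1 hi2 h3
    rw [hmc] at h3
    have h4 := zE_inj S hq (by omega) (by omega) h3
    omega
  have hcr : zE S q (q + 1 + r) ∈ C := by
    rw [zE_cross S hr]
    exact hW
  have hmr : m ≠ q + 1 + r := by
    intro h1
    rw [h1] at hmc
    rw [hmc] at hc0C
    exact hc0C hcr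
  have hc0C' : zE S q m ∉ C := by
    rw [← hmc]
    exact hc0C
  have on0 : On C (S.Z q 0) := on_left hwrap
  have on3 : On C (S.Z q (2 * S.n + 1)) := on_right hwrap
  have on1 : On C (S.Z q (q + 1 + r)) := on_left hcr
  have on2 : On C (S.Z q (q + 2 + r)) := by
    have := on_right (u := S.Z q (q + 1 + r)) (v := S.Z q (q + 1 + r + 1)) hcr
    have e1 : q + 1 + r + 1 = q + 2 + r := by omega
    rw [e1] at this
    exact this
  -- the last vertex of the curve before c0
  have hex1 : ∃ d, d ≤ m ∧ On C (S.Z q (m - d)) := ⟨m, le_rfl, by rw [Nat.sub_self]; exact on0⟩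
  set d := Nat.find hex1 with hd
  have hd1 := Nat.find_spec hex1
  rw [← hd] at hd1
  have hd3 : ∀ x, x ≤ m → On C (S.Z q x) → x ≤ m - d := by
    intro x hx hx1
    have h1 : d ≤ m - x := by
      refine Nat.find_min' hex1 ⟨by omega, ?_⟩
      have e1 : m - (m - x) = x := by omega
      rw [e1]
      exact hx1
    omega
  set lo := m - d with hlo
  -- the first vertex of the curve after c0
  have hex2 : ∃ x, m + 1 ≤ x ∧ On C (S.Z q x) := ⟨_, by omega, on3⟩
  set hi := Nat.find hex2 with hhi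
  have hhi1 := Nat.find_spec hex2
  rw [← hhi] at hhi1
  have hhi3 : ∀ x, m + 1 ≤ x → On C (S.Z q x) → hi ≤ x :=
    fun x hx hx1 => Nat.find_min' hex2 ⟨hx, hx1⟩
  have hhi4 : hi ≤ 2 * S.n + 1 := hhi3 _ (by omega) on3
  have hpos : hi ≤ q + 1 + r ∨ q + 2 + r ≤ lo := by
    by_cases h1 : m < q + 1 + r
    · exact Or.inl (hhi3 _ (by omega) on1)
    · exact Or.inr (hd3 _ (by omega) on2)
  have hed1 : ∀ j, j < lo → zE S q j ∈ C := by
    intro j hj
    rcases hpos with h1 | h1
    · exact key 0 lo (by omega) (by omega) (Or.inl (by omega)) (Or.inr (by omega)) on0 hd1.2 j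
        (by omega) hj
    · by_cases h3 : j < q + 1 + r
      · exact key 0 (q + 1 + r) (by omega) (by omega) (Or.inl le_rfl) (Or.inr (by omega)) on0 on1
          j (by omega) h3
      by_cases h4 : j = q + 1 + r
      · rw [h4]; exact hcr
      · exact key (q + 2 + r) lo (by omega) (by omega) (Or.inr le_rfl) (Or.inr (by omega)) on2
          hd1.2 j (by omega) hj
  have hed2 : ∀ j, hi ≤ j → j < 2 * S.n + 1 → zE S q j ∈ C := by
    intro j hj hj2
    rcases hpos with h1 | h1
    · by_cases h3 : j < q + 1 + r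
      · exact key hi (q + 1 + r) (by omega) (by omega) (Or.inl le_rfl) (Or.inl (by omega))
          hhi1.2 on1 j (by omega) h3
      by_cases h4 : j = q + 1 + r
      · rw [h4]; exact hcr
      · exact key (q + 2 + r) (2 * S.n + 1) (by omega) (by omega) (Or.inr le_rfl)
          (Or.inl (by omega)) on2 on3 j (by omega) hj2
    · exact key hi (2 * S.n + 1) (by omega) (by omega) (Or.inr (by omega)) (Or.inl (by omega))
        hhi1.2 on3 j hj hj2
  have hon1 : ∀ j, j ≤ lo → On C (S.Z q j) := by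
    intro j h1
    by_cases h3 : j < lo
    · exact on_left (hed1 j h3)
    · have h4 : j = lo := by omega
      rw [h4]
      exact hd1.2
  have hon2 : ∀ j, hi ≤ j → j ≤ 2 * S.n + 1 → On C (S.Z q j) := by
    intro j h1 h2
    by_cases h3 : j < 2 * S.n + 1
    · exact on_left (hed2 j h1 h3)
    · have h4 : j = 2 * S.n + 1 := by omega
      rw [h4]
      exact on3
  refine ⟨lo, hi, ⟨hq, by omega, hhi4, ?_, hwrap, ?_⟩, hpos, m, by omega, by omega, hmc.symm⟩
  · intro j hj
    constructor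
    · rintro h1 ⟨h2, h3⟩
      by_cases h4 : j = m
      · rw [h4] at h1
        exact hc0C' h1
      by_cases h5 : j < m
      · have h6 := hd3 (j + 1) (by omega) (on_right h1)
        omega
      · have h6 := hhi3 j (by omega) (on_left h1)
        omega
    · intro h1
      by_cases h2 : j < lo
      · exact hed1 j h2
      · exact hed2 j (by omega) hj
  · intro j hj
    constructor
    · intro h1
      by_cases h2 : j ≤ m
      · exact Or.inl (hd3 _ h2 h1)
      · exact Or.inr (hhi3 _ (by omega) h1)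
    · rintro (h1 | h1)
      · exact hon1 j h1
      · exact hon2 j h1 hj


theorem arc_KI {S : Strip} {q r : ℕ} {C : Finset (Sym2 Cube)} (hq : q < S.n) (hr : r < S.n)
    (h1 : s(S.vx 1 r, S.vx 1 (r + 1)) ∈ C) (h0 : s(S.vx 0 q, S.vx 0 (q + 1)) ∉ C)
    (hjoin : ∀ v v' T, On C v → On C v' → T ⊆ S.bS → s(S.vx 0 q, S.vx 0 (q + 1)) ∉ T →
      s(S.vx 1 r, S.vx 1 (r + 1)) ∉ T → Join T v v' → T ⊆ C) :
    ∃ lo hi, KI S q C lo hi ∧ lo ≤ q + 1 + r ∧ q + 2 + r ≤ hi := by
  refine core_KI hq hr h1 h0 ?_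
  intro x y hxy hy hpos hx1 hy1 j hj1 hj2
  obtain ⟨h3, h4, h5⟩ := piece_cross S hq hr hy hpos
  obtain ⟨d, rfl⟩ : ∃ d, y = x + d := ⟨y - x, by omega⟩
  exact hjoin _ _ _ hx1 hy1 h3 h4 h5 (join_piece S hq x d hy) (mem_piece.2 ⟨j, hj1, hj2, rfl⟩)

theorem arc_KII {S : Strip} {q r : ℕ} {C : Finset (Sym2 Cube)} (hq : q < S.n) (hr : r < S.n)
    (h1 : s(S.vx 1 r, S.vx 1 (r + 1)) ∈ C) (h0 : s(S.vx 0 q, S.vx 0 (q + 1)) ∈ C)
    {p0 : Cube} (hc0 : upE p0 ∈ S.bS) (hc0C : upE p0 ∉ C)
    (hjoin : ∀ v v' T, On C v → On C v' → T ⊆ S.bS → s(S.vx 0 q, S.vx 0 (q + 1)) ∉ T →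
      s(S.vx 1 r, S.vx 1 (r + 1)) ∉ T → upE p0 ∉ T → Join T v v' → T ⊆ C) :
    ∃ lo hi, KII S q C lo hi ∧ (hi ≤ q + 1 + r ∨ q + 2 + r ≤ lo) ∧
      ∃ j p, lo ≤ j ∧ j < hi ∧ s(S.Z q j, S.Z q (j + 1)) = upE p := by
  obtain ⟨lo, hi, k1, k2, j, k3, k4, k5⟩ := core_KII hq hr h1 h0 hc0 hc0C (by
    intro x y hxy hy hpos hc hx1 hy1 j hj1 hj2
    obtain ⟨h3, h4, h5⟩ := piece_cross S hq hr hy hpos
    obtain ⟨d, rfl⟩ : ∃ d, y = x + d := ⟨y - x, by omega⟩
    refine hjoin _ _ _ hx1 hy1 h3 h4 h5 ?_ (join_piece S hq x d hy)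
      (mem_piece.2 ⟨j, hj1, hj2, rfl⟩)
    intro h6
    obtain ⟨i, h7, h8, h9⟩ := mem_piece.1 h6
    exact hc i h7 h8 h9)
  exact ⟨lo, hi, k1, k2, j, p0, k3, k4, k5⟩

end Pool.Agent.Helper26.SURF
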